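import Pool.Agent.U389.BN.TD

/-!
# The basis number is at most cubic in the treewidth
-/

namespace Pool.Agent.Results.MP_35885f_co.CubicTreewidth

open scoped Classical

open Pool.Agent.U389.BN

variable {V : Type*} [Fintype V]

/-- The cycle space of `G`, over the field with two elements.  A set of edges of `G` is
represented by its indicator function `c`; it belongs to the cycle space when every vertex `v`
lies on an even number of its edges. -/
noncomputable def cycleSpace (G : SimpleGraph V) : Submodule (ZMod 2) (G.edgeSet → ZMod 2) where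
  carrier := {c | ∀ v : V, ∑ e : G.edgeSet, (if v ∈ (e : Sym2 V) then c e else 0) = 0}
  add_mem' := by
    intro a b ha hb v
    have h : ∀ e : G.edgeSet, (if v ∈ (e : Sym2 V) then (a + b) e else 0) =
        (if v ∈ (e : Sym2 V) then a e else 0) + (if v ∈ (e : Sym2 V) then b e else 0) := by
      intro e
      split_ifs <;> simp
    rw [Finset.sum_congr rfl fun e _ => h e, Finset.sum_add_distrib, ha v, hb v, add_zero]
  zero_mem' := by
    intro v
    simp
  smul_mem' := by
    intro t a ha v
    have h : ∀ e : G.edgeSet, (if v ∈ (e : Sym2 V) then (t • a) e else 0) =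
        t * (if v ∈ (e : Sym2 V) then a e else 0) := by
      intro e
      split_ifs <;> simp
    rw [Finset.sum_congr rfl fun e _ => h e, ← Finset.mul_sum, ha v, mul_zero]

/-- `B` is a cycle basis of `G`: a basis of the cycle space. -/
def IsCycleBasis (G : SimpleGraph V) (B : Finset (G.edgeSet → ZMod 2)) : Prop :=
  LinearIndependent (ZMod 2) (fun b : B => (b : G.edgeSet → ZMod 2)) ∧
    Submodule.span (ZMod 2) (B : Set (G.edgeSet → ZMod 2)) = cycleSpace G

/-- The number of members of `B` that contain the edge `e`. -/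
noncomputable def ply {G : SimpleGraph V} (B : Finset (G.edgeSet → ZMod 2)) (e : G.edgeSet) : ℕ :=
  (B.filter (fun b => b e ≠ 0)).card

/-- The basis number of `G`: the least `m` such that some cycle basis has every edge in at most
`m` of its members. -/
noncomputable def basisNumber (G : SimpleGraph V) : ℕ :=
  sInf {m | ∃ B : Finset (G.edgeSet → ZMod 2), IsCycleBasis G B ∧ ∀ e, ply B e ≤ m}

/-- `(T, B)` is a tree decomposition of `G`. -/
def IsTreeDecomposition (G : SimpleGraph V) {N : Type} (T : SimpleGraph N) (B : N → Finset V) :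
    Prop :=
  T.IsTree ∧ (∀ v, (T.induce {x | v ∈ B x}).Connected) ∧
    ∀ v w, G.Adj v w → ∃ x, v ∈ B x ∧ w ∈ B x

/-- The treewidth of `G`: the least `k` such that `G` has a tree decomposition all of whose bags
have at most `k + 1` vertices. -/
noncomputable def treewidth (G : SimpleGraph V) : ℕ :=
  sInf {k | ∃ (N : Type) (_ : Fintype N) (T : SimpleGraph N) (B : N → Finset V),
    IsTreeDecomposition G T B ∧ ∀ x, (B x).card ≤ k + 1}

theorem exists_decomposition (G : SimpleGraph V) :
    ∃ (N : Type) (_ : Fintype N) (T : SimpleGraph N) (B : N → Finset V),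
      IsTreeDecomposition G T B ∧ ∀ x, (B x).card ≤ treewidth G + 1 := by
  refine Nat.sInf_mem (s := {k | ∃ (N : Type) (_ : Fintype N) (T : SimpleGraph N)
    (B : N → Finset V), IsTreeDecomposition G T B ∧ ∀ x, (B x).card ≤ k + 1}) ?_
  refine ⟨Fintype.card V, Unit, inferInstance, ⊥, fun _ => Finset.univ, ⟨?_, ?_, ?_⟩, ?_⟩
  · refine ⟨SimpleGraph.connected_bot_iff.mpr ⟨inferInstance, inferInstance⟩, ?_⟩
    exact SimpleGraph.isAcyclic_bot
  · intro v
    have hne : Nonempty {x : Unit | v ∈ (Finset.univ : Finset V)} := ⟨⟨(), by simp⟩⟩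
    refine (SimpleGraph.connected_iff _).mpr ⟨?_, hne⟩
    intro a b
    have : a = b := Subsingleton.elim _ _
    rw [this]
  · intro v w _
    exact ⟨(), by simp, by simp⟩
  · intro x
    rw [Finset.card_univ]
    exact Nat.le_succ _

omit [Fintype V] in
theorem exists_ends (G : SimpleGraph V) :
    ∃ f : G.edgeSet → V × V, ∀ e : G.edgeSet, (e : Sym2 V) = s((f e).1, (f e).2) := by
  have h : ∀ e : G.edgeSet, ∃ p : V × V, (e : Sym2 V) = s(p.1, p.2) := by
    rintro ⟨e, he⟩
    induction e using Sym2.ind with
    | _ x y => exact ⟨(x, y), rfl⟩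
  choose f hf using h
  exact ⟨f, hf⟩

theorem Z_eq_cycleSpace {G : SimpleGraph V} {f : G.edgeSet → V × V}
    (hf : ∀ e : G.edgeSet, (e : Sym2 V) = s((f e).1, (f e).2))
    (hne : ∀ e : G.edgeSet, (f e).1 ≠ (f e).2) :
    Z f Finset.univ = cycleSpace G := by
  have key : ∀ (c : G.edgeSet → ZMod 2) (v : V),
      bd f c (Pi.single v 1) = ∑ e : G.edgeSet, (if v ∈ (e : Sym2 V) then c e else 0) := by
    intro c v
    unfold bd
    refine Finset.sum_congr rfl fun e _ => ?_
    have hmem : v ∈ (e : Sym2 V) ↔ v = (f e).1 ∨ v = (f e).2 := by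
      rw [hf e, Sym2.mem_iff]
    by_cases h1 : v = (f e).1
    · rw [if_pos (hmem.mpr (Or.inl h1)), h1, Pi.single_eq_same, Pi.single_eq_of_ne (hne e).symm]
      ring
    · by_cases h2 : v = (f e).2
      · rw [if_pos (hmem.mpr (Or.inr h2)), h2, Pi.single_eq_same, Pi.single_eq_of_ne (hne e)]
        ring
      · rw [if_neg (fun h => (hmem.mp h).elim h1 h2), Pi.single_eq_of_ne (fun h => h1 h.symm),
          Pi.single_eq_of_ne (fun h => h2 h.symm)]
        ring
  apply le_antisymm
  · intro c hc v
    rw [← key]
    exact hc.2 _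
  · intro c hc
    refine ⟨fun e he => absurd (Finset.mem_univ e) he, fun χ => ?_⟩
    have h1 : χ = ∑ v, χ v • (Pi.single v (1 : ZMod 2) : V → ZMod 2) := by
      funext z
      rw [Finset.sum_apply, Finset.sum_eq_single z]
      · simp
      · intro b _ hb
        simp [Pi.single_eq_of_ne (fun h : z = b => hb h.symm)]
      · simp
    have h2 : ∀ s : Finset V, bd f c (∑ v ∈ s, χ v • (Pi.single v (1 : ZMod 2) : V → ZMod 2)) = 0 := by
      intro s
      induction s using Finset.induction_on with
      | empty =>
        rw [Finset.sum_empty]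
        have := bd_smul_right f c 0 (0 : V → ZMod 2)
        simpa using this
      | insert a s ha ih =>
        rw [Finset.sum_insert ha, bd_add_right, ih, add_zero, bd_smul_right, key, hc a, mul_zero]
    rw [h1]
    exact h2 _

/-- A generating family of small load gives a small basis number. -/
theorem basisNumber_le_of_load {G : SimpleGraph V} (L : List (G.edgeSet → ZMod 2))
    (hL : Submodule.span (ZMod 2) {c | c ∈ L} = cycleSpace G) (m : ℕ)
    (hm : ∀ e, load L e ≤ m) : basisNumber G ≤ m := by
  obtain ⟨b, hb1, hb2, hb3⟩ := exists_linearIndependent (ZMod 2) {c | c ∈ L}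
  have hfin : b.Finite := (List.finite_toSet L).subset hb1
  refine Nat.sInf_le ⟨hfin.toFinset, ⟨?_, ?_⟩, fun e => ?_⟩
  · have h1 : ∀ x : hfin.toFinset, (x : G.edgeSet → ZMod 2) ∈ b := fun x =>
      hfin.mem_toFinset.mp x.2
    exact hb3.comp (fun x : hfin.toFinset => (⟨x, h1 x⟩ : b))
      (fun x y hxy => Subtype.ext (by simpa using hxy))
  · rw [Set.Finite.coe_toFinset, hb2, hL]
  · have h1 : (hfin.toFinset.filter (fun c => c e ≠ 0)) ⊆ (L.filter (fun c => c e ≠ 0)).toFinset := by
      intro c hc
      rw [Finset.mem_filter, hfin.mem_toFinset] at hc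
      rw [List.mem_toFinset, List.mem_filter]
      exact ⟨hb1 hc.1, by simpa using hc.2⟩
    have h2 : ply hfin.toFinset e ≤ (L.filter (fun c => c e ≠ 0)).length :=
      (Finset.card_le_card h1).trans (List.toFinset_card_le _)
    have h3 : ∀ L : List (G.edgeSet → ZMod 2),
        ((L.filter (fun c => c e ≠ 0)).length : ℝ) = load L e := by
      intro L
      induction L with
      | nil => simp [load]
      | cons c L ih =>
        rw [load_cons, ← ih]
        by_cases hc : c e = 0
        · simp [hc]
        · simp [hc]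
          ring
    have h4 := hm e
    rw [← h3] at h4
    exact h2.trans (by exact_mod_cast h4)

/-- **Theorem.** For every `k ≥ 1`, every finite graph of treewidth at most `k` has basis number
at most `16 (k + 1) ^ 3 + 2 (k + 1)`. -/
theorem result {V : Type*} [Fintype V] (G : SimpleGraph V) (k : ℕ) (hk : 1 ≤ k)
    (htw : treewidth G ≤ k) : basisNumber G ≤ 16 * (k + 1) ^ 3 + 2 * (k + 1) := by
  obtain ⟨N, iN, T, B, ⟨hT, hB, hedge⟩, hcard⟩ := exists_decomposition G
  obtain ⟨f, hf⟩ := exists_ends G
  have hadj : ∀ e : G.edgeSet, G.Adj (f e).1 (f e).2 := by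
    intro e
    have := e.2
    rw [hf e, SimpleGraph.mem_edgeSet] at this
    exact this
  obtain ⟨L, hL, hload⟩ := main_bound hk hT B (fun v => (hB v).preconnected)
    (fun x => (hcard x).trans (by omega)) (f := f) (fun e => (hadj e).ne)
    (fun e => hedge _ _ (hadj e))
  refine basisNumber_le_of_load L (hL.trans (Z_eq_cycleSpace hf fun e => (hadj e).ne)) _
    (fun e => ?_)
  refine (hload e).trans (le_of_eq ?_)
  push_cast
  ring

end Pool.Agent.Results.MP_35885f_co.CubicTreewidth
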