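import Pool.Agent.U389.BN.TD2

/-!
# The basis number is at most linear in the treewidth, up to the logarithm of the size
-/

namespace Pool.Agent.Results.MP_35885f_co.LogTreewidth

open scoped Classical

open Pool.Agent.U389.BN

variable {V : Type*} [Fintype V]

/-- The cycle space of `G`, over the field with two elements.  A set of edges of `G` is
represented by its indicator function `c`; it belongs to the cycle space when every vertex `v`
lies on an even number of its edges. -/
noncomputable def cycleSpace (G : SimpleGraph V) : Submodule (ZMod 2) (G.edgeSet → ZMod 2) where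
  carrier := {c | ∀ v : V, ∑ e : G.edgeSet, (if v ∈ (e : Sym2 V) then c e else 0) = 0}
  add_mem' := by
    intro a b ha hb v
    have h : ∀ e : G.edgeSet, (if v ∈ (e : Sym2 V) then (a + b) e else 0) =
        (if v ∈ (e : Sym2 V) then a e else 0) + (if v ∈ (e : Sym2 V) then b e else 0) := by
      intro e
      split_ifs <;> simp
    rw [Finset.sum_congr rfl fun e _ => h e, Finset.sum_add_distrib, ha v, hb v, add_zero]
  zero_mem' := by
    intro v
    simp
  smul_mem' := by
    intro t a ha v
    have h : ∀ e : G.edgeSet, (if v ∈ (e : Sym2 V) then (t • a) e else 0) =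
        t * (if v ∈ (e : Sym2 V) then a e else 0) := by
      intro e
      split_ifs <;> simp
    rw [Finset.sum_congr rfl fun e _ => h e, ← Finset.mul_sum, ha v, mul_zero]

/-- `B` is a cycle basis of `G`: a basis of the cycle space. -/
def IsCycleBasis (G : SimpleGraph V) (B : Finset (G.edgeSet → ZMod 2)) : Prop :=
  LinearIndependent (ZMod 2) (fun b : B => (b : G.edgeSet → ZMod 2)) ∧
    Submodule.span (ZMod 2) (B : Set (G.edgeSet → ZMod 2)) = cycleSpace G

/-- The number of members of `B` that contain the edge `e`. -/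
noncomputable def ply {G : SimpleGraph V} (B : Finset (G.edgeSet → ZMod 2)) (e : G.edgeSet) : ℕ :=
  (B.filter (fun b => b e ≠ 0)).card

/-- The basis number of `G`: the least `m` such that some cycle basis has every edge in at most
`m` of its members. -/
noncomputable def basisNumber (G : SimpleGraph V) : ℕ :=
  sInf {m | ∃ B : Finset (G.edgeSet → ZMod 2), IsCycleBasis G B ∧ ∀ e, ply B e ≤ m}

/-- `(T, B)` is a tree decomposition of `G`. -/
def IsTreeDecomposition (G : SimpleGraph V) {N : Type} (T : SimpleGraph N) (B : N → Finset V) :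
    Prop :=
  T.IsTree ∧ (∀ v, (T.induce {x | v ∈ B x}).Connected) ∧
    ∀ v w, G.Adj v w → ∃ x, v ∈ B x ∧ w ∈ B x

/-- The treewidth of `G`: the least `k` such that `G` has a tree decomposition all of whose bags
have at most `k + 1` vertices. -/
noncomputable def treewidth (G : SimpleGraph V) : ℕ :=
  sInf {k | ∃ (N : Type) (_ : Fintype N) (T : SimpleGraph N) (B : N → Finset V),
    IsTreeDecomposition G T B ∧ ∀ x, (B x).card ≤ k + 1}

theorem exists_decomposition (G : SimpleGraph V) :
    ∃ (N : Type) (_ : Fintype N) (T : SimpleGraph N) (B : N → Finset V),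
      IsTreeDecomposition G T B ∧ ∀ x, (B x).card ≤ treewidth G + 1 := by
  refine Nat.sInf_mem (s := {k | ∃ (N : Type) (_ : Fintype N) (T : SimpleGraph N)
    (B : N → Finset V), IsTreeDecomposition G T B ∧ ∀ x, (B x).card ≤ k + 1}) ?_
  refine ⟨Fintype.card V, Unit, inferInstance, ⊥, fun _ => Finset.univ, ⟨?_, ?_, ?_⟩, ?_⟩
  · refine ⟨SimpleGraph.connected_bot_iff.mpr ⟨inferInstance, inferInstance⟩, ?_⟩
    exact SimpleGraph.isAcyclic_bot
  · intro v
    have hne : Nonempty {x : Unit | v ∈ (Finset.univ : Finset V)} := ⟨⟨(), by simp⟩⟩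
    refine (SimpleGraph.connected_iff _).mpr ⟨?_, hne⟩
    intro a b
    have : a = b := Subsingleton.elim _ _
    rw [this]
  · intro v w _
    exact ⟨(), by simp, by simp⟩
  · intro x
    rw [Finset.card_univ]
    exact Nat.le_succ _

omit [Fintype V] in
theorem exists_ends (G : SimpleGraph V) :
    ∃ f : G.edgeSet → V × V, ∀ e : G.edgeSet, (e : Sym2 V) = s((f e).1, (f e).2) := by
  have h : ∀ e : G.edgeSet, ∃ p : V × V, (e : Sym2 V) = s(p.1, p.2) := by
    rintro ⟨e, he⟩
    induction e using Sym2.ind with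
    | _ x y => exact ⟨(x, y), rfl⟩
  choose f hf using h
  exact ⟨f, hf⟩

theorem Z_eq_cycleSpace {G : SimpleGraph V} {f : G.edgeSet → V × V}
    (hf : ∀ e : G.edgeSet, (e : Sym2 V) = s((f e).1, (f e).2))
    (hne : ∀ e : G.edgeSet, (f e).1 ≠ (f e).2) :
    Z f Finset.univ = cycleSpace G := by
  have key : ∀ (c : G.edgeSet → ZMod 2) (v : V),
      bd f c (Pi.single v 1) = ∑ e : G.edgeSet, (if v ∈ (e : Sym2 V) then c e else 0) := by
    intro c v
    unfold bd
    refine Finset.sum_congr rfl fun e _ => ?_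
    have hmem : v ∈ (e : Sym2 V) ↔ v = (f e).1 ∨ v = (f e).2 := by
      rw [hf e, Sym2.mem_iff]
    by_cases h1 : v = (f e).1
    · rw [if_pos (hmem.mpr (Or.inl h1)), h1, Pi.single_eq_same, Pi.single_eq_of_ne (hne e).symm]
      ring
    · by_cases h2 : v = (f e).2
      · rw [if_pos (hmem.mpr (Or.inr h2)), h2, Pi.single_eq_same, Pi.single_eq_of_ne (hne e)]
        ring
      · rw [if_neg (fun h => (hmem.mp h).elim h1 h2), Pi.single_eq_of_ne (fun h => h1 h.symm),
          Pi.single_eq_of_ne (fun h => h2 h.symm)]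
        ring
  apply le_antisymm
  · intro c hc v
    rw [← key]
    exact hc.2 _
  · intro c hc
    refine ⟨fun e he => absurd (Finset.mem_univ e) he, fun χ => ?_⟩
    have h1 : χ = ∑ v, χ v • (Pi.single v (1 : ZMod 2) : V → ZMod 2) := by
      funext z
      rw [Finset.sum_apply, Finset.sum_eq_single z]
      · simp
      · intro b _ hb
        simp [Pi.single_eq_of_ne (fun h : z = b => hb h.symm)]
      · simp
    have h2 : ∀ s : Finset V, bd f c (∑ v ∈ s, χ v • (Pi.single v (1 : ZMod 2) : V → ZMod 2)) = 0 := by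
      intro s
      induction s using Finset.induction_on with
      | empty =>
        rw [Finset.sum_empty]
        have := bd_smul_right f c 0 (0 : V → ZMod 2)
        simpa using this
      | insert a s ha ih =>
        rw [Finset.sum_insert ha, bd_add_right, ih, add_zero, bd_smul_right, key, hc a, mul_zero]
    rw [h1]
    exact h2 _

/-- A generating family in which every edge is used at most `m` times gives basis number at most
`m`. -/
theorem basisNumber_le_of_cnt {G : SimpleGraph V} (L : List (G.edgeSet → ZMod 2))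
    (hL : Submodule.span (ZMod 2) {c | c ∈ L} = cycleSpace G) (m : ℕ)
    (hm : ∀ e, cnt L e ≤ m) : basisNumber G ≤ m := by
  obtain ⟨b, hb1, hb2, hb3⟩ := exists_linearIndependent (ZMod 2) {c | c ∈ L}
  have hfin : b.Finite := (List.finite_toSet L).subset hb1
  refine Nat.sInf_le ⟨hfin.toFinset, ⟨?_, ?_⟩, fun e => ?_⟩
  · have h1 : ∀ x : hfin.toFinset, (x : G.edgeSet → ZMod 2) ∈ b := fun x =>
      hfin.mem_toFinset.mp x.2
    exact hb3.comp (fun x : hfin.toFinset => (⟨x, h1 x⟩ : b))
      (fun x y hxy => Subtype.ext (by simpa using hxy))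
  · rw [Set.Finite.coe_toFinset, hb2, hL]
  · have h1 : (hfin.toFinset.filter (fun c => c e ≠ 0)) ⊆ (L.filter (fun c => c e ≠ 0)).toFinset := by
      intro c hc
      rw [Finset.mem_filter, hfin.mem_toFinset] at hc
      rw [List.mem_toFinset, List.mem_filter]
      exact ⟨hb1 hc.1, by simpa using hc.2⟩
    exact ((Finset.card_le_card h1).trans (List.toFinset_card_le _)).trans (hm e)

theorem exists_family (G : SimpleGraph V) (k : ℕ) (hk : 1 ≤ k) (htw : treewidth G ≤ k)
    {t : ℝ} (ht : 0 ≤ t) :
    ∃ L : List (G.edgeSet → ZMod 2), Submodule.span (ZMod 2) {c | c ∈ L} = cycleSpace G ∧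
      ∀ r, (1 + t) ^ cnt L r ≤
        (Fintype.card G.edgeSet : ℝ) * Real.exp (t * (2 * ((k : ℝ) + 1))) := by
  obtain ⟨N, iN, T, B, ⟨hT, hB, hedge⟩, hcard⟩ := exists_decomposition G
  obtain ⟨f, hf⟩ := exists_ends G
  have hadj : ∀ e : G.edgeSet, G.Adj (f e).1 (f e).2 := by
    intro e
    have := e.2
    rw [hf e, SimpleGraph.mem_edgeSet] at this
    exact this
  obtain ⟨L, hL, hload⟩ := main_bound2 ht hk hT B (fun v => (hB v).preconnected)
    (fun x => (hcard x).trans (by omega)) (f := f) (fun e => (hadj e).ne)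
    (fun e => hedge _ _ (hadj e))
  exact ⟨L, hL.trans (Z_eq_cycleSpace hf fun e => (hadj e).ne), hload⟩

theorem pow_basisNumber_le (G : SimpleGraph V) (k : ℕ) (hk : 1 ≤ k) (htw : treewidth G ≤ k)
    (hG : G.edgeSet.Nonempty) {t : ℝ} (ht : 0 ≤ t) :
    (1 + t) ^ basisNumber G ≤
      (Nat.card G.edgeSet : ℝ) * Real.exp (2 * t * ((k : ℝ) + 1)) := by
  obtain ⟨L, hL, hload⟩ := exists_family G k hk htw ht
  have : Nonempty G.edgeSet := hG.to_subtype
  obtain ⟨r, _, hr⟩ := Finset.exists_max_image (Finset.univ : Finset G.edgeSet)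
    (fun r => cnt L r) Finset.univ_nonempty
  have h1 : basisNumber G ≤ cnt L r :=
    basisNumber_le_of_cnt L hL _ (fun e => hr e (Finset.mem_univ e))
  have h2 : (1 + t) ^ basisNumber G ≤ (1 + t) ^ cnt L r :=
    pow_le_pow_right₀ (by linarith) h1
  refine h2.trans ((hload r).trans (le_of_eq ?_))
  rw [Nat.card_eq_fintype_card]
  congr 2
  ring

/-- **Theorem.** Let `G` be a finite graph of treewidth at most `k`, where `k ≥ 1`, with `m`
edges.  Then `(1 + t) ^ bn(G) ≤ m * exp(2 t (k + 1))` for every real `t ≥ 0` (if `m > 0`), and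
`bn(G) ≤ 3 (k + 1) + log₂ m`. -/
theorem result {V : Type*} [Fintype V] (G : SimpleGraph V) (k : ℕ) (hk : 1 ≤ k)
    (htw : treewidth G ≤ k) :
    (G.edgeSet.Nonempty → ∀ t : ℝ, 0 ≤ t → (1 + t) ^ basisNumber G ≤
      (Nat.card G.edgeSet : ℝ) * Real.exp (2 * t * ((k : ℝ) + 1))) ∧
    basisNumber G ≤ 3 * (k + 1) + Nat.log 2 (Nat.card G.edgeSet) := by
  refine ⟨fun hG t ht => pow_basisNumber_le G k hk htw hG ht, ?_⟩
  by_cases hG : G.edgeSet.Nonempty
  · have h1 := pow_basisNumber_le G k hk htw hG (zero_le_one (α := ℝ))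
    have h2 : Real.exp (2 * 1 * ((k : ℝ) + 1)) ≤ 8 ^ (k + 1) := by
      have h3 : Real.exp (2 * 1 * ((k : ℝ) + 1)) = (Real.exp 1 ^ 2) ^ (k + 1) := by
        rw [← Real.exp_nat_mul, ← Real.exp_nat_mul]
        congr 1
        push_cast
        ring
      rw [h3]
      refine pow_le_pow_left₀ (by positivity) ?_ _
      have h4 := Real.exp_one_lt_d9
      have h5 := Real.exp_pos 1
      nlinarith
    have h6 : (2 : ℝ) ^ basisNumber G ≤ (Nat.card G.edgeSet : ℝ) * 2 ^ (3 * (k + 1)) := by
      have h7 : (2 : ℝ) ^ (3 * (k + 1)) = 8 ^ (k + 1) := by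
        rw [pow_mul]
        norm_num
      rw [h7]
      have h8 : (1 + 1 : ℝ) = 2 := by norm_num
      rw [h8] at h1
      exact h1.trans (mul_le_mul_of_nonneg_left h2 (Nat.cast_nonneg _))
    have h9 : 2 ^ basisNumber G ≤ Nat.card G.edgeSet * 2 ^ (3 * (k + 1)) := by
      exact_mod_cast h6
    by_cases h10 : basisNumber G ≤ 3 * (k + 1)
    · exact h10.trans (Nat.le_add_right _ _)
    · push Not at h10
      obtain ⟨d, hd⟩ := Nat.exists_eq_add_of_le h10.le
      rw [hd, pow_add, mul_comm] at h9
      have h11 : 2 ^ d ≤ Nat.card G.edgeSet := Nat.le_of_mul_le_mul_right h9 (by positivity)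
      rw [hd]
      exact Nat.add_le_add_left (Nat.le_log_of_pow_le (by norm_num) h11) _
  · obtain ⟨L, hL, _⟩ := exists_family G k hk htw (zero_le_one (α := ℝ))
    have h1 := basisNumber_le_of_cnt L hL 0 (fun e => absurd ⟨e.1, e.2⟩ hG)
    omega

end Pool.Agent.Results.MP_35885f_co.LogTreewidth
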